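import Pool.Agent.N145.PL.Main
import Pool.Agent.J4.H19.FC.Abs

/-!
Images of fibrations by open curves: `A¹`-uniruledness from the vanishing of the traces. The proof
follows `Pool.Agent.J4.H19.FC.cov_abs` and `Pool.Agent.N145.PL.a1_erase`.
-/

set_option autoImplicit false
set_option linter.overlappingInstances false
set_option linter.unusedSectionVars false
set_option linter.unusedVariables false
set_option maxHeartbeats 4000000
set_option synthInstance.maxHeartbeats 400000

open IntermediateField Module FF Pool.Agent.W619.PQ Pool.Agent.W603.LV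
open Pool.Agent.W602.GT (Divisorial RegAt IsPluri)
open Pool.Agent.N145.PC Pool.Agent.N145.PL
open Pool.Agent.R882.GL (trace_fib reg_res)

namespace Pool.Agent.J4.H18.LS

variable {K : Type} [Field K] [Algebra ℂ K] {n : ℕ}

/-- the points of the geometric generic fibre over the boundary -/
theorem mem_fibre {Λ F : Type} [Field Λ] [Field F] [Algebra Λ F] [Algebra K F] [Algebra ℂ Λ]
    [Algebra ℂ F] [IsScalarTower ℂ Λ F] [IsScalarTower ℂ K F] {L : Type} [Field L] [Algebra ℂ L]
    [Algebra L K] [IsScalarTower ℂ L K] [FiniteDimensional L K] {BV : Place ℂ K → Prop}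
    {Bf : Set (Place Λ F)}
    (hBf : ∀ (Q : Place Λ F) (P : Place ℂ K) (e : ℕ), 0 < e →
      (∀ z : K, Q.ord (algebraMap K F z) = e * P.ord z) → BV P → Q ∈ Bf)
    {BL : Place ℂ L → Prop}
    (hBL : ∀ (P : Place ℂ L) (Q : Place ℂ K) (e : ℕ), Over Q P e → BL P → BV Q)
    (Q : Place Λ F) (v : Place ℂ L) {e : ℕ} (he : 0 < e)
    (hQv : ∀ z : L, Q.ord (algebraMap K F (algebraMap L K z)) = e * v.ord z) (hBv : BL v) :
    Q ∈ Bf := by
  have hch : CharZero Λ := charZero_of_injective_algebraMap (algebraMap ℂ Λ).injective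
  obtain ⟨Q', hQ'⟩ : ∃ Q' : Place ℂ F, Q'.ord = Q.ord := by
    refine ⟨{ ord := Q.ord
              ord_zero := Q.ord_zero
              ord_mul := Q.ord_mul
              ord_add := Q.ord_add
              ord_const := ?_
              surj := Q.surj }, rfl⟩
    intro c hc
    rw [IsScalarTower.algebraMap_apply ℂ Λ F]
    exact Q.ord_const (by simpa using hc)
  obtain ⟨tv, -, htv⟩ := v.surj
  obtain ⟨e1, P', hP'⟩ := exists_over (K := K) Q' ⟨algebraMap L K tv, by
    intro h1
    rw [hQ'] at h1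
    have h3 := hQv tv
    rw [h1, htv] at h3
    have h4 : (e : ℤ) ≠ 0 := by exact_mod_cast he.ne'
    omega⟩
  obtain ⟨v', e2, hv'⟩ := Pool.Agent.Y172.exists_below (K := L) P'
  have hvv : v = v' := by
    have h1 : ∀ f, (e : ℤ) * v.ord f = (e1 * e2 : ℕ) * v'.ord f := by
      intro f
      rw [← hQv, ← hQ', hP'.2, hv'.2]
      push_cast
      ring
    obtain ⟨f', -, hf'⟩ := v'.surj
    have h3 := h1 tv
    have h4 := h1 f'
    rw [htv, mul_one] at h3
    rw [hf', mul_one] at h4
    have h5 : ((e1 * e2 : ℕ) : ℤ) ∣ e := ⟨_, h3⟩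
    have h6 : (e : ℤ) ∣ (e1 * e2 : ℕ) := ⟨_, h4.symm⟩
    have h7 : e = e1 * e2 := Nat.dvd_antisymm (by exact_mod_cast h6) (by exact_mod_cast h5)
    refine Pool.Agent.Y172.place_ext fun f => ?_
    have h8 := h1 f
    rw [← h7] at h8
    have he' : (e : ℤ) ≠ 0 := by exact_mod_cast he.ne'
    exact mul_left_cancel₀ he' h8
  rw [← hvv] at hv'
  exact hBf Q P' e1 hP'.1 (fun z => by rw [← hQ', hP'.2]) (hBL v P' e2 hv' hBv)

section

variable {B Λ F : Type} [Field B] [Field Λ] [Field F] [Algebra ℂ B] [Algebra B K]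
  [IsScalarTower ℂ B K] [Algebra B Λ] [Algebra Λ F] [Algebra K F] [Algebra B F]
  [IsScalarTower B Λ F] [IsScalarTower B K F] [Algebra ℂ Λ] [Algebra ℂ F] [IsScalarTower ℂ Λ F]
  [IsScalarTower ℂ K F] [IsScalarTower ℂ B Λ] [Algebra.IsAlgebraic B Λ] [IsAlgClosed Λ]
  {L : Type} [Field L] [Algebra ℂ L] [Algebra L K] [IsScalarTower ℂ L K] [FiniteDimensional L K]

/-- **`A¹`-uniruledness, abstract form.** -/
theorem a1_abs [hess : Algebra.EssFiniteType ℂ K] (hK : Algebra.trdeg ℂ K = (n + 1 : ℕ))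
    (hB : Algebra.trdeg ℂ B = n)
    (hcl : ∀ x : K, IsIntegral B x → ∃ y : B, algebraMap B K y = x)
    (hgenF : IntermediateField.adjoin Λ (Set.range (algebraMap K F)) = ⊤)
    (E' : IntermediateField B K) [FiniteDimensional E' K]
    (hLE : ∀ z : L, algebraMap L K z ∈ E') {J : Type}
    (ω : J → (Fin (n + 1) → Derivation ℂ K K) → K) {BV : Place ℂ K → Prop}
    {Bf : Set (Place Λ F)}
    (hBf : ∀ (Q : Place Λ F) (P : Place ℂ K) (e : ℕ), 0 < e →
      (∀ z : K, Q.ord (algebraMap K F z) = e * P.ord z) → BV P → Q ∈ Bf)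
    (hspan : ∀ (t : Fin n → K) (ξ : K), (∀ j, t j ∈ Set.range (algebraMap B K)) →
      IsTranscendenceBasis ℂ (Fin.append t (fun _ : Fin 1 => ξ)) →
      ∀ E : Fin (n + 1) → Derivation ℂ K K,
      (∀ i j, E i (Fin.append t (fun _ : Fin 1 => ξ) j) = if i = j then 1 else 0) →
      ∀ D : Derivation Λ F F, D (algebraMap K F ξ) = 1 →
      ∀ f ∈ HL D Bf, f ∈ Submodule.span Λ (Set.range fun j => algebraMap K F (ω j E)))
    (htr : ∀ (D0 : Fin (n + 1) → Derivation ℂ (E'.restrictScalars ℂ) (E'.restrictScalars ℂ))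
      (Ef : Fin (n + 1) → Derivation ℂ K K),
      (∀ i (z : E'.restrictScalars ℂ), Ef i (z : K) = ((D0 i z : E'.restrictScalars ℂ) : K)) →
      ∀ j, Algebra.trace E' K (ω j Ef) = 0)
    {BL : Place ℂ L → Prop}
    (hBL : ∀ (P : Place ℂ L) (Q : Place ℂ K) (e : ℕ), Over Q P e → BL P → BV Q) :
    Pool.Agent.W619.PL.IsA1Uniruled ℂ L (n + 1) BL := by
  classical
  have hL : Algebra.trdeg ℂ L = (n + 1 : ℕ) := Pool.Agent.Y184.NT.trdeg_below (K := K) hK
  have hessL : Algebra.EssFiniteType ℂ L := Pool.Agent.TH466.QG.ess_below (K := K)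
  have hB0 : CharZero B := charZero_of_injective_algebraMap (algebraMap ℂ B).injective
  have hΛ0 : CharZero Λ := charZero_of_injective_algebraMap (algebraMap B Λ).injective
  -- the coordinates
  obtain ⟨tB, htB⟩ := Pool.Agent.W636.PG.exists_basis ℂ B n hB
  have hLK : Algebra.trdeg B K = (1 : ℕ) :=
    Pool.Agent.Y174.trdeg_LK (r := 1) hB hK
  obtain ⟨ξ, hξE, hξ⟩ : ∃ ξ : K, ξ ∈ E' ∧ ¬ IsAlgebraic B ξ := by
    by_contra hcon
    push Not at hcon
    have h1 : Algebra.IsAlgebraic B E' := ⟨fun z => by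
      have h2 := hcon (z : K) z.2
      exact (isAlgebraic_algebraMap_iff (R := B) (algebraMap E' K).injective).1 h2⟩
    have h2 : Algebra.IsAlgebraic B K := Algebra.IsAlgebraic.trans B E' K
    have h3 : Algebra.trdeg B K = 0 := trdeg_eq_zero
    rw [h3] at hLK
    have h4 : (0 : ℕ) = 1 := by exact_mod_cast hLK
    exact zero_ne_one h4
  have hxB : IsTranscendenceBasis B (fun _ : Fin (0 + 1) => ξ) := by
    have h1 : AlgebraicIndependent B (fun _ : Fin (0 + 1) => ξ) := by
      have : Unique (Fin (0 + 1)) := inferInstanceAs (Unique (Fin 1))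
      rw [algebraicIndependent_unique_type_iff]
      exact hξ
    refine h1.isTranscendenceBasis_of_lift_trdeg_le_of_finite ?_
    rw [hLK]
    simp
  have hZ := Pool.Agent.Y174.basis_append htB hxB
  -- the frame, lifted from `E'`
  obtain ⟨EE, hEE⟩ : ∃ EE : IntermediateField ℂ K, EE = E'.restrictScalars ℂ := ⟨_, rfl⟩
  have hfinE : FiniteDimensional EE K := by
    rw [hEE]
    exact inferInstanceAs (FiniteDimensional E' K)
  have hEtr : Algebra.trdeg ℂ EE = (n + 1 : ℕ) :=
    Pool.Agent.Y184.NT.trdeg_below (K := K) hK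
  have hmemE : ∀ i, Fin.append (algebraMap B K ∘ tB) (fun _ : Fin (0 + 1) => ξ) i ∈ EE := by
    intro i
    rw [hEE]
    refine Fin.addCases (fun i => ?_) (fun i => ?_) i
    · rw [Fin.append_left]
      exact E'.algebraMap_mem (tB i)
    · rw [Fin.append_right]
      exact hξE
  obtain ⟨zE, hzE⟩ : ∃ zE : Fin (n + 1) → EE, ∀ i, (zE i : K) =
    Fin.append (algebraMap B K ∘ tB) (fun _ : Fin (0 + 1) => ξ) i :=
      ⟨fun i => ⟨_, hmemE i⟩, fun _ => rfl⟩
  have hzEb : IsTranscendenceBasis ℂ zE := by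
    have h1 : AlgebraicIndependent ℂ zE := by
      refine AlgebraicIndependent.of_comp EE.val ?_
      have h2 : (EE.val ∘ zE) = Fin.append (algebraMap B K ∘ tB) (fun _ : Fin (0 + 1) => ξ) :=
        funext hzE
      rw [h2]
      exact hZ.1
    refine h1.isTranscendenceBasis_of_lift_trdeg_le_of_finite ?_
    rw [hEtr]
    simp
  obtain ⟨D0, hD0⟩ := Pool.Agent.W636.PG.exists_duals ℂ EE (n + 1) zE hzEb
  choose Ef hEf using fun i => Pool.Agent.Y172.exists_lift (k := ℂ) (K := EE) (L := K) hEtr (D0 i)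
  have hEd : ∀ i j, Ef i (Fin.append (algebraMap B K ∘ tB) (fun _ : Fin (0 + 1) => ξ) j) =
      if i = j then 1 else 0 := by
    intro i j
    rw [← hzE j]
    have h1 := hEf i (zE j)
    rw [hD0] at h1
    refine h1.trans ?_
    by_cases h : i = j
    · rw [if_pos h, if_pos h, map_one]
    · rw [if_neg h, if_neg h, map_zero]
  have hS0 : ∀ j, Algebra.trace E' K (ω j Ef) = 0 := by
    subst hEE
    exact htr D0 Ef fun i z => hEf i z
  -- the fibre
  have htrF : Algebra.trdeg Λ F = (1 : ℕ) :=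
    Pool.Agent.Y174.trdeg_F (L := B) (K := K) hLK hgenF
  have hessF : Algebra.EssFiniteType Λ F := Pool.Agent.Y174.ess_F (k := ℂ) (K := K) hess hgenF
  have hFF : IsFF Λ F := ⟨hessF, by rw [htrF]; simp⟩
  have hξF : Transcendental Λ (algebraMap K F ξ) := by
    intro h
    apply hξ
    have h1 : IsAlgebraic B (algebraMap K F ξ) := h.restrictScalars B
    exact (isAlgebraic_algebraMap_iff (R := B) (algebraMap K F).injective).1 h1
  obtain ⟨D, hD1⟩ := exists_D (k := Λ) hξF
  -- the traces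
  obtain ⟨FE, hFE⟩ : ∃ FE : IntermediateField Λ F,
    FE = IntermediateField.adjoin Λ (algebraMap K F '' E') := ⟨_, rfl⟩
  obtain ⟨hfin, htrace⟩ := trace_fib (F := F) hcl hgenF E' FE hFE
  have hessE : Algebra.EssFiniteType Λ FE := Pool.Agent.TH466.QG.ess_below (K := F)
  have htrE : Algebra.trdeg Λ FE = 1 := by
    have h1 := trdeg_add_eq Λ FE (A := F)
    have h2 : Algebra.trdeg FE F = 0 := trdeg_eq_zero
    rw [h2, add_zero, hFF.trdeg] at h1
    exact h1
  have hFFE : IsFF Λ FE := ⟨hessE, htrE⟩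
  have hmemFE : ∀ e : K, e ∈ E' → algebraMap K F e ∈ FE := by
    intro e he
    rw [hFE]
    exact IntermediateField.subset_adjoin _ _ ⟨e, he, rfl⟩
  have hzero : ∀ g ∈ HL D Bf, Algebra.trace FE F g = 0 := by
    intro g hg
    have hmem := hspan (algebraMap B K ∘ tB) ξ (fun j => ⟨tB j, rfl⟩) hZ Ef hEd D hD1 g hg
    clear hg
    induction hmem using Submodule.span_induction with
    | zero => rw [map_zero]
    | add u v _ _ hu hv => rw [map_add, hu, hv, add_zero]
    | smul a u _ hu =>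
      have h10 : a • u = (algebraMap Λ FE a) • u := by
        rw [Algebra.smul_def, Algebra.smul_def, ← IsScalarTower.algebraMap_apply Λ FE F]
      rw [h10, map_smul, hu, smul_zero]
    | mem y hy =>
      obtain ⟨j, rfl⟩ := hy
      apply Subtype.ext
      rw [htrace, hS0 j]
      simp
  obtain ⟨s, hs, hsB⟩ := curve Λ FE F D ⟨algebraMap K F ξ, hmemFE ξ hξE⟩ hD1 Bf hzero
  have hsF : Transcendental Λ ((s : FE) : F) := by
    intro h
    have h1 : IsAlgebraic Λ s :=
      (isAlgebraic_algebraMap_iff (R := Λ) (algebraMap FE F).injective).1 h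
    have h2 : Algebra.IsAlgebraic Λ (IntermediateField.adjoin Λ {s}) :=
      IntermediateField.isAlgebraic_adjoin_simple h1.isIntegral
    have h3 : IsAlgebraic Λ (⟨algebraMap K F ξ, hmemFE ξ hξE⟩ : FE) := by
      have h4 : (⟨algebraMap K F ξ, hmemFE ξ hξE⟩ : FE) ∈ IntermediateField.adjoin Λ {s} := by
        rw [hs]
        trivial
      have h5 := h2.isAlgebraic ⟨_, h4⟩
      exact (isAlgebraic_algebraMap_iff (R := Λ)
        (algebraMap (IntermediateField.adjoin Λ {s}) FE).injective).2 h5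
    exact hξF ((isAlgebraic_algebraMap_iff (R := Λ) (algebraMap FE F).injective).2 h3)
  have hsM : ∀ e ∈ E', algebraMap K F e ∈ IntermediateField.adjoin Λ {((s : FE) : F)} := by
    intro e he
    have h1 : (⟨algebraMap K F e, hmemFE _ he⟩ : FE) ∈ IntermediateField.adjoin Λ {s} := by
      rw [hs]
      trivial
    have h2 : (IntermediateField.adjoin Λ {s}).map FE.val =
        IntermediateField.adjoin Λ {((s : FE) : F)} := by
      rw [IntermediateField.adjoin_map, Set.image_singleton]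
      rfl
    rw [← h2]
    exact ⟨_, h1, rfl⟩
  have hΛtr : Algebra.trdeg ℂ Λ = (n : ℕ) := by
    have h1 := trdeg_add_eq ℂ B (A := Λ)
    have h2 : Algebra.trdeg B Λ = 0 := trdeg_eq_zero
    rw [h2, add_zero, hB] at h1
    exact h1.symm
  let ψ : L →ₐ[ℂ] F := (IsScalarTower.toAlgHom ℂ K F).comp (IsScalarTower.toAlgHom ℂ L K)
  have hψ : ∀ z : L, ψ z = algebraMap K F (algebraMap L K z) := fun z => rfl
  refine a1 n L Λ F hL hΛtr ψ ((s : FE) : F) hsF (fun e => ?_) BL ?_
  · rw [hψ]
    exact hsM _ (hLE e)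
  · intro Q v e he hQv hBv
    exact hsB Q (mem_fibre (K := K) hBf hBL Q v he (fun z => by rw [← hψ]; exact hQv z) hBv)

end

end Pool.Agent.J4.H18.LS
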