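import Pool.Agent.N273.SX.FIB1
import Pool.Agent.N145.PL.Main

/-!
Open curves of logarithmic genus at most one.
-/

set_option autoImplicit false
set_option linter.overlappingInstances false
set_option linter.unusedSectionVars false
set_option linter.unusedVariables false
set_option maxHeartbeats 4000000
set_option synthInstance.maxHeartbeats 400000

open Polynomial FF IsDedekindDomain IntermediateField Module

namespace Pool.Agent.J4.H18.LS

open Pool.Agent.W603.LV Pool.Agent.W619.PQ Pool.Agent.N145.PC Pool.Agent.N145.PL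
open Pool.Agent.N75.LG (exists_below)

/-- Any two differentials of the curve `F` over `Λ` which are regular outside of the set `S` of points
and have at most simple poles in `S` are proportional: the open curve `F ∖ S` has logarithmic genus
at most one (it is a rational curve without at most two points, or an elliptic curve without at most
one point). -/
def LogGenusLeOne (Λ F : Type) [Field Λ] [Field F] [Algebra Λ F] (S : Set (Place Λ F)) : Prop :=
  ∀ D : Derivation Λ F F, D ≠ 0 → ∀ f ∈ HL D S, ∀ g ∈ HL D S,
    ∃ a b : Λ, (a ≠ 0 ∨ b ≠ 0) ∧ algebraMap Λ F a * f = algebraMap Λ F b * g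

/-- the traces of the logarithmic differentials of `F` are multiples of one function: then any two
logarithmic differentials of `E` are proportional -/
theorem lglo_of_line {k E F : Type} [Field k] [Field E] [Field F] [Algebra k E] [Algebra k F]
    [Algebra E F] [IsScalarTower k E F] [CharZero k] [IsAlgClosed k] [IsFF k E] [IsFF k F]
    [FiniteDimensional E F] {SE : Set (Place k E)} {SF : Set (Place k F)}
    (hS : ∀ (q : Place k E) (Q : Place k F) (e : ℕ), 0 < e →
      (∀ z : E, Q.ord (algebraMap E F z) = e * q.ord z) → q ∈ SE → Q ∈ SF)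
    (D : Derivation k F F) (ξ : E) (hD : D (algebraMap E F ξ) = 1)
    (S : F) (htr : ∀ g ∈ HL D SF, ∃ c : k,
      algebraMap E F (Algebra.trace E F g) = algebraMap k F c * S) : LogGenusLeOne k E SE := by
  classical
  have hD0 : D ≠ 0 := by
    intro h
    rw [h] at hD
    exact zero_ne_one hD
  have hξ : Transcendental k ξ := by
    intro halg
    have hint := halg.isIntegral
    have hdeg := IsAlgClosed.degree_eq_one_of_irreducible k (minpoly.irreducible hint)
    obtain ⟨c, hc⟩ := minpoly.mem_range_of_degree_eq_one k ξ hdeg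
    rw [← hc, ← IsScalarTower.algebraMap_apply, Derivation.map_algebraMap] at hD
    exact zero_ne_one hD
  have hξF : Transcendental k (algebraMap E F ξ) := transcendental_map hξ
  have hd0 := der_ne (k := k) (K := E)
  have hd1 := der_ne_zero hd0 hξ
  obtain ⟨DE, hDE⟩ : ∃ DE : Derivation k E E, DE = (der k E ξ)⁻¹ • der k E := ⟨_, rfl⟩
  have hDE1 : DE ξ = 1 := by
    rw [hDE, Derivation.smul_apply, smul_eq_mul, inv_mul_cancel₀ hd1]
  have hDE0 : DE ≠ 0 := by
    intro h
    rw [h] at hDE1
    exact zero_ne_one hDE1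
  obtain ⟨D2, hD2, hext2⟩ := exists_ext (E := F) DE hDE0
  have hDD : ∀ z : F, D2 z = D z := by
    refine der_ext hξF ?_
    have h1 := hext2 ξ
    rw [hDE1, map_one] at h1
    rw [hD]
    exact h1
  have hext : ∀ z : E, D (algebraMap E F z) = algebraMap E F (DE z) := fun z => by
    rw [← hDD, hext2]
  have hE0 : CharZero E := charZero_of_injective_algebraMap (algebraMap k E).injective
  have hr0 : (Module.finrank E F : k) ≠ 0 := by
    have h3 : 0 < Module.finrank E F := Module.finrank_pos
    exact_mod_cast h3.ne'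
  -- the pull-backs
  have hpull : ∀ f ∈ HL DE SE, algebraMap E F f ∈ HL D SF := by
    intro f hf Q
    obtain ⟨q, e, hq⟩ := exists_below (E := E) Q
    have h1 := vo_over hq hDE0 hD0 hext
    have h2 := hf q
    have h3 : Q.ord (algebraMap E F f) = e * q.ord f := hq.2 f
    have h4 : (1 : ℤ) ≤ e := by exact_mod_cast hq.1
    by_cases hf0 : f = 0
    · rw [hf0, map_zero]
      exact Ge.zero
    have h6 := h2.resolve_left hf0
    have h5 := mul_le_mul_of_nonneg_left h6 (by omega : (0 : ℤ) ≤ e)
    right
    rw [h1, h3]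
    by_cases hqS : q ∈ SE
    · have hQS : Q ∈ SF := hS q Q e hq.1 hq.2 hqS
      have h7 : bd SE q = 1 := by unfold bd; rw [if_pos hqS]
      have h8 : bd SF Q = 1 := by unfold bd; rw [if_pos hQS]
      rw [h7] at h5
      rw [h8]
      linarith
    · have h7 : bd SE q = 0 := by unfold bd; rw [if_neg hqS]
      have h8 : 0 ≤ bd SF Q := by unfold bd; split_ifs <;> omega
      rw [h7] at h5
      linarith
  -- the line
  have hline : ∀ f ∈ HL DE SE, ∃ c : k,
      algebraMap E F f = algebraMap k F c * S := by
    intro f hf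
    obtain ⟨c, hc⟩ := htr _ (hpull f hf)
    refine ⟨c / (Module.finrank E F : k), ?_⟩
    rw [Algebra.trace_algebraMap, nsmul_eq_mul, map_mul, map_natCast] at hc
    have h1 : (Module.finrank E F : F) ≠ 0 := by
      have h2 : algebraMap k F (Module.finrank E F : k) ≠ 0 := (_root_.map_ne_zero _).2 hr0
      rwa [map_natCast] at h2
    rw [map_div₀, map_natCast, div_mul_eq_mul_div, ← hc, mul_div_cancel_left₀ _ h1]
  intro D1 hD1 f hf g hg
  have hu : D1 ξ ≠ 0 := der_ne_zero hD1 hξ
  have hD1E : D1 = (D1 ξ) • DE := by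
    ext z
    refine der_ext hξ ?_ z
    rw [Derivation.smul_apply, smul_eq_mul, hDE1, mul_one]
  have hdiv : ∀ f ∈ HL D1 SE, f / D1 ξ ∈ HL DE SE := by
    intro f hf P
    have h1 := hf P
    have h2 : vo P D1 = P.ord (D1 ξ) + vo P DE := by
      conv_lhs => rw [hD1E]
      exact vo_smul P hDE0 hu
    by_cases hf0 : f = 0
    · rw [hf0, zero_div]
      exact Ge.zero
    · have h6 := h1.resolve_left hf0
      right
      rw [P.ord_div hf0 hu]
      omega
  obtain ⟨a, ha⟩ := hline _ (hdiv f hf)
  obtain ⟨b, hb⟩ := hline _ (hdiv g hg)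
  have hinj := (algebraMap E F).injective
  by_cases hab : a = 0 ∧ b = 0
  · refine ⟨1, 1, Or.inl one_ne_zero, ?_⟩
    have h1 : f / D1 ξ = 0 := by
      apply hinj
      rw [ha, hab.1, map_zero, zero_mul, map_zero]
    have h2 : g / D1 ξ = 0 := by
      apply hinj
      rw [hb, hab.2, map_zero, zero_mul, map_zero]
    rw [(div_eq_zero_iff.1 h1).resolve_right hu, (div_eq_zero_iff.1 h2).resolve_right hu]
  · refine ⟨b, a, ?_, ?_⟩
    · by_contra hcon
      push Not at hcon
      exact hab ⟨hcon.2, hcon.1⟩
    · have h1 : algebraMap k E b * (f / D1 ξ) = algebraMap k E a * (g / D1 ξ) := by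
        apply hinj
        rw [map_mul, map_mul, ha, hb, ← IsScalarTower.algebraMap_apply,
          ← IsScalarTower.algebraMap_apply]
        ring
      have h2 : algebraMap k E b * f = (algebraMap k E b * (f / D1 ξ)) * D1 ξ := by
        field_simp
      have h3 : algebraMap k E a * g = (algebraMap k E a * (g / D1 ξ)) * D1 ξ := by
        field_simp
      rw [h2, h3, h1]

/-- The points of the curve `F` over the places in `BL` of the subfield `L`. -/
def Above {L Λ F : Type} [Field L] [Field Λ] [Field F] [Algebra ℂ L] [Algebra ℂ F]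
    [Algebra Λ F] (ψ : L →ₐ[ℂ] F) (BL : Place ℂ L → Prop) : Set (Place Λ F) :=
  {Q | ∃ P : Place ℂ L, BL P ∧ ∃ e : ℕ, 0 < e ∧ ∀ z : L, Q.ord (ψ z) = e * P.ord z}

/-- The open variety with the function field `L`, of dimension `n + 1`, and with the boundary `BL` is
covered by an `n`-dimensional family of open curves of logarithmic genus at most one. -/
def LogCov1 (L : Type) [Field L] [Algebra ℂ L] (n : ℕ) (BL : Place ℂ L → Prop) : Prop :=
  ∃ (Λ F : Type) (_ : Field Λ) (_ : Field F) (_ : Algebra ℂ Λ) (_ : Algebra ℂ F)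
    (_ : Algebra Λ F) (_ : IsScalarTower ℂ Λ F) (_ : IsAlgClosed Λ) (_ : IsFF Λ F),
    Algebra.trdeg ℂ Λ = n ∧ ∃ ψ : L →ₐ[ℂ] F, LogGenusLeOne Λ F (Above ψ BL)

end Pool.Agent.J4.H18.LS
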