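import Pool.Agent.J4.H18.LS.Abs
import Pool.Agent.J4.H18.LS.Line

/-!
Images of fibrations by open curves: coverings by curves of logarithmic genus at most one, and the
geometric generic fibre.
-/

set_option autoImplicit false
set_option linter.overlappingInstances false
set_option linter.unusedSectionVars false
set_option linter.unusedVariables false
set_option maxHeartbeats 4000000
set_option synthInstance.maxHeartbeats 400000

open IntermediateField Module FF Pool.Agent.W619.PQ Pool.Agent.W603.LV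
open Pool.Agent.W602.GT (Divisorial RegAt IsPluri)
open Pool.Agent.N145.PC Pool.Agent.N145.PL
open Pool.Agent.R882.GL (trace_fib reg_res)
open Pool.Agent.J4.H19.FC (GF toGF)

namespace Pool.Agent.J4.H18.LS

variable {K : Type} [Field K] [Algebra ℂ K] {n : ℕ}

section

variable {B Λ F : Type} [Field B] [Field Λ] [Field F] [Algebra ℂ B] [Algebra B K]
  [IsScalarTower ℂ B K] [Algebra B Λ] [Algebra Λ F] [Algebra K F] [Algebra B F]
  [IsScalarTower B Λ F] [IsScalarTower B K F] [Algebra ℂ Λ] [Algebra ℂ F] [IsScalarTower ℂ Λ F]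
  [IsScalarTower ℂ K F] [IsScalarTower ℂ B Λ] [Algebra.IsAlgebraic B Λ] [IsAlgClosed Λ]
  {L : Type} [Field L] [Algebra ℂ L] [Algebra L K] [IsScalarTower ℂ L K] [FiniteDimensional L K]

/-- **Coverings by curves of logarithmic genus at most one, abstract form.** -/
theorem cov_abs [hess : Algebra.EssFiniteType ℂ K] (hK : Algebra.trdeg ℂ K = (n + 1 : ℕ))
    (hB : Algebra.trdeg ℂ B = n)
    (hcl : ∀ x : K, IsIntegral B x → ∃ y : B, algebraMap B K y = x)
    (hgenF : IntermediateField.adjoin Λ (Set.range (algebraMap K F)) = ⊤)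
    (E' : IntermediateField B K) [FiniteDimensional E' K]
    (hLE : ∀ z : L, algebraMap L K z ∈ E') {J : Type}
    (ω : J → (Fin (n + 1) → Derivation ℂ K K) → K) {BV : Place ℂ K → Prop}
    {Bf : Set (Place Λ F)}
    (hBf : ∀ (Q : Place Λ F) (P : Place ℂ K) (e : ℕ), 0 < e →
      (∀ z : K, Q.ord (algebraMap K F z) = e * P.ord z) → BV P → Q ∈ Bf)
    (hspan : ∀ (t : Fin n → K) (ξ : K), (∀ j, t j ∈ Set.range (algebraMap B K)) →
      IsTranscendenceBasis ℂ (Fin.append t (fun _ : Fin 1 => ξ)) →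
      ∀ E : Fin (n + 1) → Derivation ℂ K K,
      (∀ i j, E i (Fin.append t (fun _ : Fin 1 => ξ) j) = if i = j then 1 else 0) →
      ∀ D : Derivation Λ F F, D (algebraMap K F ξ) = 1 →
      ∀ f ∈ HL D Bf, f ∈ Submodule.span Λ (Set.range fun j => algebraMap K F (ω j E)))
    (htr : ∀ (D0 : Fin (n + 1) → Derivation ℂ (E'.restrictScalars ℂ) (E'.restrictScalars ℂ))
      (Ef : Fin (n + 1) → Derivation ℂ K K),
      (∀ i (z : E'.restrictScalars ℂ), Ef i (z : K) = ((D0 i z : E'.restrictScalars ℂ) : K)) →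
      ∃ S0 : K, ∀ j, ∃ c : B,
        ((Algebra.trace E' K (ω j Ef) : E') : K) = algebraMap B K c * S0)
    {BL : Place ℂ L → Prop}
    (hBL : ∀ (P : Place ℂ L) (Q : Place ℂ K) (e : ℕ), Over Q P e → BL P → BV Q) :
    LogCov1 L n BL := by
  classical
  have hB0 : CharZero B := charZero_of_injective_algebraMap (algebraMap ℂ B).injective
  have hΛ0 : CharZero Λ := charZero_of_injective_algebraMap (algebraMap B Λ).injective
  -- the coordinates
  obtain ⟨tB, htB⟩ := Pool.Agent.W636.PG.exists_basis ℂ B n hB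
  have hLK : Algebra.trdeg B K = (1 : ℕ) :=
    Pool.Agent.Y174.trdeg_LK (r := 1) hB hK
  obtain ⟨ξ, hξE, hξ⟩ : ∃ ξ : K, ξ ∈ E' ∧ ¬ IsAlgebraic B ξ := by
    by_contra hcon
    push Not at hcon
    have h1 : Algebra.IsAlgebraic B E' := ⟨fun z => by
      have h2 := hcon (z : K) z.2
      exact (isAlgebraic_algebraMap_iff (R := B) (algebraMap E' K).injective).1 h2⟩
    have h2 : Algebra.IsAlgebraic B K := Algebra.IsAlgebraic.trans B E' K
    have h3 : Algebra.trdeg B K = 0 := trdeg_eq_zero
    rw [h3] at hLK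
    have h4 : (0 : ℕ) = 1 := by exact_mod_cast hLK
    exact zero_ne_one h4
  have hxB : IsTranscendenceBasis B (fun _ : Fin (0 + 1) => ξ) := by
    have h1 : AlgebraicIndependent B (fun _ : Fin (0 + 1) => ξ) := by
      have : Unique (Fin (0 + 1)) := inferInstanceAs (Unique (Fin 1))
      rw [algebraicIndependent_unique_type_iff]
      exact hξ
    refine h1.isTranscendenceBasis_of_lift_trdeg_le_of_finite ?_
    rw [hLK]
    simp
  have hZ := Pool.Agent.Y174.basis_append htB hxB
  -- the frame, lifted from `E'`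
  obtain ⟨EE, hEE⟩ : ∃ EE : IntermediateField ℂ K, EE = E'.restrictScalars ℂ := ⟨_, rfl⟩
  have hfinE : FiniteDimensional EE K := by
    rw [hEE]
    exact inferInstanceAs (FiniteDimensional E' K)
  have hEtr : Algebra.trdeg ℂ EE = (n + 1 : ℕ) :=
    Pool.Agent.Y184.NT.trdeg_below (K := K) hK
  have hmemE : ∀ i, Fin.append (algebraMap B K ∘ tB) (fun _ : Fin (0 + 1) => ξ) i ∈ EE := by
    intro i
    rw [hEE]
    refine Fin.addCases (fun i => ?_) (fun i => ?_) i
    · rw [Fin.append_left]
      exact E'.algebraMap_mem (tB i)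
    · rw [Fin.append_right]
      exact hξE
  obtain ⟨zE, hzE⟩ : ∃ zE : Fin (n + 1) → EE, ∀ i, (zE i : K) =
    Fin.append (algebraMap B K ∘ tB) (fun _ : Fin (0 + 1) => ξ) i :=
      ⟨fun i => ⟨_, hmemE i⟩, fun _ => rfl⟩
  have hzEb : IsTranscendenceBasis ℂ zE := by
    have h1 : AlgebraicIndependent ℂ zE := by
      refine AlgebraicIndependent.of_comp EE.val ?_
      have h2 : (EE.val ∘ zE) = Fin.append (algebraMap B K ∘ tB) (fun _ : Fin (0 + 1) => ξ) :=
        funext hzE
      rw [h2]
      exact hZ.1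
    refine h1.isTranscendenceBasis_of_lift_trdeg_le_of_finite ?_
    rw [hEtr]
    simp
  obtain ⟨D0, hD0⟩ := Pool.Agent.W636.PG.exists_duals ℂ EE (n + 1) zE hzEb
  choose Ef hEf using fun i => Pool.Agent.Y172.exists_lift (k := ℂ) (K := EE) (L := K) hEtr (D0 i)
  have hEd : ∀ i j, Ef i (Fin.append (algebraMap B K ∘ tB) (fun _ : Fin (0 + 1) => ξ) j) =
      if i = j then 1 else 0 := by
    intro i j
    rw [← hzE j]
    have h1 := hEf i (zE j)
    rw [hD0] at h1
    refine h1.trans ?_
    by_cases h : i = j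
    · rw [if_pos h, if_pos h, map_one]
    · rw [if_neg h, if_neg h, map_zero]
  obtain ⟨S0, hS0⟩ : ∃ S0 : K, ∀ j, ∃ c : B,
      ((Algebra.trace E' K (ω j Ef) : E') : K) = algebraMap B K c * S0 := by
    subst hEE
    exact htr D0 Ef fun i z => hEf i z
  -- the fibre
  have htrF : Algebra.trdeg Λ F = (1 : ℕ) :=
    Pool.Agent.Y174.trdeg_F (L := B) (K := K) hLK hgenF
  have hessF : Algebra.EssFiniteType Λ F := Pool.Agent.Y174.ess_F (k := ℂ) (K := K) hess hgenF
  have hFF : IsFF Λ F := ⟨hessF, by rw [htrF]; simp⟩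
  have hξF : Transcendental Λ (algebraMap K F ξ) := by
    intro h
    apply hξ
    have h1 : IsAlgebraic B (algebraMap K F ξ) := h.restrictScalars B
    exact (isAlgebraic_algebraMap_iff (R := B) (algebraMap K F).injective).1 h1
  obtain ⟨D, hD1⟩ := exists_D (k := Λ) hξF
  -- the traces
  obtain ⟨FE, hFE⟩ : ∃ FE : IntermediateField Λ F,
    FE = IntermediateField.adjoin Λ (algebraMap K F '' E') := ⟨_, rfl⟩
  obtain ⟨hfin, htrace⟩ := trace_fib (F := F) hcl hgenF E' FE hFE
  have hessE : Algebra.EssFiniteType Λ FE := Pool.Agent.TH466.QG.ess_below (K := F)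
  have htrE : Algebra.trdeg Λ FE = 1 := by
    have h1 := trdeg_add_eq Λ FE (A := F)
    have h2 : Algebra.trdeg FE F = 0 := trdeg_eq_zero
    rw [h2, add_zero, hFF.trdeg] at h1
    exact h1
  have hFFE : IsFF Λ FE := ⟨hessE, htrE⟩
  have hmemFE : ∀ e : K, e ∈ E' → algebraMap K F e ∈ FE := by
    intro e he
    rw [hFE]
    exact IntermediateField.subset_adjoin _ _ ⟨e, he, rfl⟩
  have hT : IsScalarTower ℂ Λ FE := IsScalarTower.of_algebraMap_eq fun c => by
    apply Subtype.ext
    change algebraMap ℂ F c = algebraMap Λ F (algebraMap ℂ Λ c)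
    rw [← IsScalarTower.algebraMap_apply]
  have hmemL : ∀ z : L, algebraMap K F (algebraMap L K z) ∈ FE := fun z => hmemFE _ (hLE z)
  let ψ : L →ₐ[ℂ] FE :=
    { toFun := fun e => ⟨algebraMap K F (algebraMap L K e), hmemL e⟩
      map_one' := Subtype.ext (by simp)
      map_mul' := fun a b => Subtype.ext (by simp)
      map_zero' := Subtype.ext (by simp)
      map_add' := fun a b => Subtype.ext (by simp)
      commutes' := fun c => Subtype.ext (by
        change algebraMap K F (algebraMap L K (algebraMap ℂ L c)) = algebraMap ℂ F c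
        rw [← IsScalarTower.algebraMap_apply ℂ L K, ← IsScalarTower.algebraMap_apply]) }
  have hψ : ∀ z : L, ((ψ z : FE) : F) = algebraMap K F (algebraMap L K z) := fun z => rfl
  have hΛtr : Algebra.trdeg ℂ Λ = (n : ℕ) := by
    have h1 := trdeg_add_eq ℂ B (A := Λ)
    have h2 : Algebra.trdeg B Λ = 0 := trdeg_eq_zero
    rw [h2, add_zero, hB] at h1
    exact h1.symm
  refine ⟨Λ, FE, inferInstance, inferInstance, inferInstance, inferInstance, inferInstance, hT,
    inferInstance, hFFE, hΛtr, ψ, ?_⟩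
  refine lglo_of_line (F := F) (SF := Bf) (fun q Q e he hQ hq => ?_) D
    ⟨algebraMap K F ξ, hmemFE ξ hξE⟩ hD1 (algebraMap K F S0) fun g hg => ?_
  · obtain ⟨P, hP, e', he', hqP⟩ := hq
    refine mem_fibre (K := K) hBf hBL Q P (Nat.mul_pos he he') (fun z => ?_) hP
    rw [← hψ]
    change Q.ord (algebraMap FE F (ψ z)) = _
    rw [hQ, hqP]
    push_cast
    ring
  · have hmem := hspan (algebraMap B K ∘ tB) ξ (fun j => ⟨tB j, rfl⟩) hZ Ef hEd D hD1 g hg
    clear hg
    induction hmem using Submodule.span_induction with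
    | zero => exact ⟨0, by rw [map_zero, map_zero, map_zero, zero_mul]⟩
    | add u v _ _ hu hv =>
      obtain ⟨c, hc⟩ := hu
      obtain ⟨d, hd⟩ := hv
      exact ⟨c + d, by rw [map_add, map_add, hc, hd, map_add, add_mul]⟩
    | smul a u _ hu =>
      obtain ⟨c, hc⟩ := hu
      have h10 : a • u = (algebraMap Λ FE a) • u := by
        rw [Algebra.smul_def, Algebra.smul_def, ← IsScalarTower.algebraMap_apply Λ FE F]
      refine ⟨a * c, ?_⟩
      rw [h10, map_smul, smul_eq_mul, map_mul, hc, ← IsScalarTower.algebraMap_apply Λ FE F,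
        map_mul]
      ring
    | mem y hy =>
      obtain ⟨j, rfl⟩ := hy
      obtain ⟨c, hc⟩ := hS0 j
      refine ⟨algebraMap B Λ c, ?_⟩
      have h11 := htrace (ω j Ef)
      rw [hc, map_mul (algebraMap K F), ← IsScalarTower.algebraMap_apply B K F,
        IsScalarTower.algebraMap_apply B Λ F] at h11
      exact h11

end

/-- The points of the geometric generic fibre of the map to the variety with the function field `B`
which are in the boundary `BV`. -/
def FibreBoundary (B : IntermediateField ℂ K) (BV : Place ℂ K → Prop) :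
    Set (Place (algebraicClosure B (AlgebraicClosure K)) (GF B)) :=
  {Q | ∃ P : Place ℂ K, BV P ∧ ∃ e : ℕ, 0 < e ∧ ∀ z : K, Q.ord (toGF B z) = e * P.ord z}

open scoped Classical in
/-- The restrictions of the forms `ω j` to the geometric generic fibre `C` of the map to the variety
with the function field `B` generate the logarithmic differentials of the open curve
`C ∖ FibreBoundary B BV`: the differentials which are regular on this open curve and have at most
simple poles at the points of the boundary. -/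
def GenLog {J : Type} (B : IntermediateField ℂ K) (BV : Place ℂ K → Prop)
    (ω : J → (Fin (n + 1) → Derivation ℂ K K) → K) : Prop :=
  ∀ (t : Fin n → K) (ξ : K), (∀ j, t j ∈ B) →
    IsTranscendenceBasis ℂ (Fin.append t (fun _ : Fin 1 => ξ)) →
    ∀ E : Fin (n + 1) → Derivation ℂ K K,
      (∀ i j, E i (Fin.append t (fun _ : Fin 1 => ξ) j) = if i = j then 1 else 0) →
    ∀ D : Derivation (algebraicClosure B (AlgebraicClosure K)) (GF B) (GF B), D (toGF B ξ) = 1 →
    ∀ f : GF B, (∀ (Q : Place (algebraicClosure B (AlgebraicClosure K)) (GF B)) (u : GF B),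
        Q.ord u = 1 → f = 0 ∨
          Q.ord (D u) ≤ Q.ord f + (if Q ∈ FibreBoundary B BV then 1 else 0)) →
      f ∈ Submodule.span (algebraicClosure B (AlgebraicClosure K))
        (Set.range fun j => toGF B (ω j E))

section

variable {L : Type} [Field L] [Algebra ℂ L] [Algebra L K] [IsScalarTower ℂ L K]
  [FiniteDimensional L K]

/-- **The geometric generic fibre.** -/
theorem geo [hess : Algebra.EssFiniteType ℂ K] (hK : Algebra.trdeg ℂ K = (n + 1 : ℕ))
    (B : IntermediateField ℂ K) (hB : Algebra.trdeg ℂ B = n)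
    (hcl : ∀ z : K, IsAlgebraic B z → z ∈ B) (E' : IntermediateField B K)
    [FiniteDimensional E' K] (hLE : ∀ z : L, algebraMap L K z ∈ E') {J : Type}
    (ω : J → (Fin (n + 1) → Derivation ℂ K K) → K) {BV : Place ℂ K → Prop}
    (hspan : GenLog B BV ω) {BL : Place ℂ L → Prop}
    (hBL : ∀ (P : Place ℂ L) (Q : Place ℂ K) (e : ℕ), Over Q P e → BL P → BV Q) :
    ((∀ (D0 : Fin (n + 1) → Derivation ℂ (E'.restrictScalars ℂ) (E'.restrictScalars ℂ))
      (Ef : Fin (n + 1) → Derivation ℂ K K),
      (∀ i (z : E'.restrictScalars ℂ), Ef i (z : K) = ((D0 i z : E'.restrictScalars ℂ) : K)) →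
      ∀ j, Algebra.trace E' K (ω j Ef) = 0) →
      Pool.Agent.W619.PL.IsA1Uniruled ℂ L (n + 1) BL) ∧
    ((∀ (D0 : Fin (n + 1) → Derivation ℂ (E'.restrictScalars ℂ) (E'.restrictScalars ℂ))
      (Ef : Fin (n + 1) → Derivation ℂ K K),
      (∀ i (z : E'.restrictScalars ℂ), Ef i (z : K) = ((D0 i z : E'.restrictScalars ℂ) : K)) →
      ∃ S0 : K, ∀ j, ∃ c ∈ B, ((Algebra.trace E' K (ω j Ef) : E') : K) = c * S0) →
      LogCov1 L n BL) := by
  classical
  have hcl' : ∀ z : K, IsIntegral B z → ∃ y : B, algebraMap B K y = z := fun z hz =>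
    ⟨⟨z, hcl z hz.isAlgebraic⟩, rfl⟩
  let Ω := AlgebraicClosure K
  let Λ : IntermediateField B Ω := algebraicClosure B Ω
  have hΛ : IsAlgClosed Λ := (algebraicClosure.isAlgClosure B Ω).isAlgClosed
  have hΛalg : Algebra.IsAlgebraic B Λ := inferInstance
  let F : IntermediateField Λ Ω := IntermediateField.adjoin Λ (Set.range (algebraMap K Ω))
  have hTL : IsScalarTower ℂ B Ω := IsScalarTower.of_algebraMap_eq fun z => by
    rw [IsScalarTower.algebraMap_apply ℂ K Ω]
    rfl
  have hTΛ : IsScalarTower ℂ Λ Ω := IsScalarTower.of_algebraMap_eq fun z => by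
    rw [IsScalarTower.algebraMap_apply ℂ B Ω]
    rfl
  let φ0 : K →+* F :=
    { toFun := fun z => ⟨algebraMap K Ω z, IntermediateField.subset_adjoin _ _ ⟨z, rfl⟩⟩
      map_one' := Subtype.ext (map_one _)
      map_mul' := fun a b => Subtype.ext (map_mul _ _ _)
      map_zero' := Subtype.ext (map_zero _)
      map_add' := fun a b => Subtype.ext (map_add _ _ _) }
  let iKF : Algebra K F := φ0.toAlgebra
  have hKF : ∀ z : K, ((algebraMap K F z : F) : Ω) = algebraMap K Ω z := fun z => rfl
  have hKF' : ∀ z : K, toGF B z = algebraMap K F z := fun z => rfl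
  have hT1 : IsScalarTower B K F := IsScalarTower.of_algebraMap_eq fun z => Subtype.ext rfl
  have hT2 : IsScalarTower ℂ K F := IsScalarTower.of_algebraMap_eq fun z => by
    apply Subtype.ext
    rw [hKF, ← IsScalarTower.algebraMap_apply ℂ K Ω]
    rfl
  have hT3 : IsScalarTower ℂ B Λ := inferInstance
  have hT4 : IsScalarTower B Λ F := IsScalarTower.of_algebraMap_eq fun z => Subtype.ext rfl
  have hT5 : IsScalarTower ℂ Λ F := inferInstance
  have hgenF : IntermediateField.adjoin Λ (Set.range (algebraMap K F)) = ⊤ := by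
    have h1 : (IntermediateField.adjoin Λ (Set.range (algebraMap K F))).map F.val =
        (⊤ : IntermediateField Λ F).map F.val := by
      rw [IntermediateField.adjoin_map, ← AlgHom.fieldRange_eq_map,
        IntermediateField.fieldRange_val]
      congr 1
      ext z
      simp only [Set.mem_image, Set.mem_range]
      constructor
      · rintro ⟨_, ⟨y, rfl⟩, rfl⟩
        exact ⟨y, rfl⟩
      · rintro ⟨y, rfl⟩
        exact ⟨_, ⟨y, rfl⟩, rfl⟩
    exact IntermediateField.map_injective _ h1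
  have hLK : Algebra.trdeg B K = (1 : ℕ) := Pool.Agent.Y174.trdeg_LK (r := 1) hB hK
  have htrF : Algebra.trdeg Λ F = (1 : ℕ) :=
    Pool.Agent.Y174.trdeg_F (L := B) (K := K) hLK hgenF
  have hessF : Algebra.EssFiniteType Λ F := Pool.Agent.Y174.ess_F (k := ℂ) (K := K) hess hgenF
  have hFF : IsFF Λ F := ⟨hessF, by rw [htrF]; simp⟩
  have hΛ0 : CharZero Λ := charZero_of_injective_algebraMap (algebraMap ℂ Λ).injective
  obtain ⟨Bf, hBfd⟩ : ∃ Bf : Set (Place Λ F), Bf = FibreBoundary B BV := ⟨_, rfl⟩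
  have hBf : ∀ (Q : Place Λ F) (P : Place ℂ K) (e : ℕ), 0 < e →
      (∀ z : K, Q.ord (algebraMap K F z) = e * P.ord z) → BV P → Q ∈ Bf := by
    intro Q P e he hQ hP
    rw [hBfd]
    exact ⟨P, hP, e, he, hQ⟩
  have hsp : ∀ (t : Fin n → K) (ξ : K), (∀ j, t j ∈ Set.range (algebraMap B K)) →
      IsTranscendenceBasis ℂ (Fin.append t (fun _ : Fin 1 => ξ)) →
      ∀ E : Fin (n + 1) → Derivation ℂ K K,
      (∀ i j, E i (Fin.append t (fun _ : Fin 1 => ξ) j) = if i = j then 1 else 0) →
      ∀ D : Derivation Λ F F, D (algebraMap K F ξ) = 1 →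
      ∀ f ∈ HL D Bf, f ∈ Submodule.span Λ (Set.range fun j => algebraMap K F (ω j E)) := by
    intro t ξ ht hZ Ef hEf D hD f hf
    have hD0 : D ≠ 0 := by
      intro h0
      rw [h0] at hD
      exact zero_ne_one hD
    refine hspan t ξ (fun j => by
      obtain ⟨b, hb⟩ := ht j
      rw [← hb]
      exact b.2) hZ Ef hEf D hD f fun Q u hu => ?_
    have h1 := hf Q
    rcases h1 with h1 | h1
    · exact Or.inl h1
    · right
      have h2 : Q.ord (D u) = vo Q D := vo_eq (k := Λ) (K := F) Q hu hD0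
      refine h2.le.trans ?_
      unfold bd at h1
      rw [hBfd] at h1
      by_cases hQ : Q ∈ FibreBoundary B BV
      · rw [if_pos hQ] at h1 ⊢
        linarith
      · rw [if_neg hQ] at h1 ⊢
        linarith
  refine ⟨fun htr => a1_abs (Λ := Λ) (F := F) hK hB hcl' hgenF E' hLE ω hBf hsp htr hBL,
    fun htr => cov_abs (Λ := Λ) (F := F) hK hB hcl' hgenF E' hLE ω hBf hsp ?_ hBL⟩
  intro D0 Ef hEf
  obtain ⟨S0, hS0⟩ := htr D0 Ef hEf
  refine ⟨S0, fun j => ?_⟩
  obtain ⟨c, hc, h⟩ := hS0 j
  exact ⟨⟨c, hc⟩, h⟩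

end

end Pool.Agent.J4.H18.LS
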