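import Pool.Agent.J4.H18.LS.Line
import Pool.Agent.N123.SX.PullCore
import Pool.Agent.N145.SX.Cover

/-!
Open varieties which are covered by curves of logarithmic genus at most one.
-/

set_option autoImplicit false
set_option linter.overlappingInstances false
set_option linter.unusedSectionVars false
set_option linter.unusedVariables false
set_option maxHeartbeats 4000000
set_option synthInstance.maxHeartbeats 400000

open Polynomial FF IsDedekindDomain IntermediateField Module

namespace Pool.Agent.J4.H18.LS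

open Pool.Agent.W603.LV Pool.Agent.W619.PQ Pool.Agent.N145.PC Pool.Agent.N145.PL
open Pool.Agent.W602.GT (Divisorial RegAt IsPluri DerReg DerLog LogAt KodGe LogSec)
open Pool.Agent.N281.SX (rcP rcP_div dl dl_same dl_ne det_eq)

/-- **Restriction of logarithmic canonical forms to the fibres.** -/
theorem core_log {E Λ Ξ : Type} [Field E] [Field Λ] [Field Ξ] [Algebra ℂ E] [Algebra ℂ Λ]
    [Algebra ℂ Ξ] [Algebra Λ Ξ] [Algebra E Ξ] [IsScalarTower ℂ Λ Ξ] [IsScalarTower ℂ E Ξ]
    [Algebra.EssFiniteType ℂ E] [IsAlgClosed Λ] [IsFF Λ Ξ] {m N : ℕ} (hm : Algebra.trdeg ℂ E = m)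
    (hN : Algebra.trdeg ℂ Λ = N) {x : Fin m → E} (hx : IsTranscendenceBasis ℂ x)
    {D0 : Fin m → Derivation ℂ E E} (hdual : ∀ i j, D0 i (x j) = if i = j then 1 else 0)
    {BX : Place ℂ E → Prop} {ω : (Fin m → Derivation ℂ E E) → E} (hpl : IsPluri 1 ω)
    (hsec : ∀ P : Place ℂ E, Divisorial m P → LogAt P ω ∧ (¬ BX P → RegAt P ω))
    (Ds : Derivation Λ Ξ Ξ) {s : Ξ} (hs : Ds s = 1)
    (δ : Fin m → Derivation ℂ Ξ Ξ) (i0 : Fin m) (hi0 : ∀ z, δ i0 z = Ds z)
    (hδ : ∀ i (c : Λ), ∃ c' : Λ, δ i (algebraMap Λ Ξ c) = algebraMap Λ Ξ c')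
    {S : Set (Place Λ Ξ)} (hS : ∀ (Q : Place Λ Ξ) (P : Place ℂ E) (e : ℕ), 0 < e →
      (∀ z : E, Q.ord (algebraMap E Ξ z) = e * P.ord z) → BX P → Q ∈ S)
    (Q : Place Λ Ξ) : Ge Q (vo Q Ds - bd S Q)
      ((Matrix.of fun i j => δ i (algebraMap E Ξ (x j)) : Matrix (Fin m) (Fin m) Ξ).det *
        algebraMap E Ξ (ω D0)) := by
  classical
  have hch : CharZero Λ := charZero_of_injective_algebraMap (algebraMap ℂ Λ).injective
  have hess : Algebra.EssFiniteType Λ Ξ := IsFF.ess
  have hD0 : Ds ≠ 0 := by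
    rintro rfl
    simp at hs
  obtain ⟨τ, hτ⟩ : ∃ τ, τ = unif Q := ⟨_, rfl⟩
  have hτ1 : Q.ord τ = 1 := by rw [hτ]; exact ord_unif Q
  have hτ0 : τ ≠ 0 := by
    intro h
    rw [h, Q.ord_zero] at hτ1
    exact zero_ne_one hτ1
  obtain ⟨a, ha⟩ : ∃ a, a = Ds τ := ⟨_, rfl⟩
  have ha0 : a ≠ 0 := by rw [ha]; exact der_pi_ne_zero hD0 Q hτ1
  have hvo : vo Q Ds = Q.ord a := by rw [ha, hτ]; rfl
  -- regularity of the normalised derivations
  have hdr : ∀ i, DerReg (rcP Q) (dl δ i0 τ a i) := by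
    intro i g hg
    have h1 : Q.Reg g := hg
    have h2 := Pool.Agent.N131.MV.der_regular (P := Q) (m := 0) (s := (Fin.elim0 : Fin 0 → Ξ))
      (δ := dl δ i0 τ a i) (by rw [IsFF.trdeg (k := Λ) (K := Ξ)]; simp)
      (by
        intro G hG
        rw [MvPolynomial.eq_C_of_isEmpty G] at hG ⊢
        have hc : MvPolynomial.coeff 0 G ≠ 0 := by
          intro h
          rw [h, map_zero] at hG
          exact hG rfl
        rw [MvPolynomial.aeval_C]
        exact ⟨by simpa using hc, Q.ord_const hc⟩)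
      (by
        intro c
        by_cases hi : i = i0
        · subst hi
          rw [dl_same, hi0, Derivation.map_algebraMap, mul_zero]
          exact Q.reg_zero
        · rw [dl_ne _ _ _ _ hi, hi0, Derivation.map_algebraMap, mul_zero, sub_zero]
          obtain ⟨c', hc'⟩ := hδ i c
          rw [hc']
          exact Q.reg_const c')
      (fun i => i.elim0) hτ1
      (by
        by_cases hi : i = i0
        · subst hi
          rw [dl_same, hi0, ← ha, inv_mul_cancel₀ ha0]
          exact Q.reg_one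
        · rw [dl_ne _ _ _ _ hi, hi0, ← ha, div_mul_cancel₀ _ ha0, sub_self]
          exact Q.reg_zero) g h1
    exact h2
  -- transcendence degree
  have htr : Algebra.trdeg ℂ Ξ = ((N + 1 : ℕ) : Cardinal) := by
    have h1 := trdeg_add_eq ℂ Λ (A := Ξ)
    rw [hN, IsFF.trdeg (k := Λ) (K := Ξ)] at h1
    rw [← h1]
    push_cast
    rfl
  rw [det_eq δ i0 τ ha0, mul_assoc, hvo]
  have h1 : Ge Q (Q.ord a) a := Or.inr le_rfl
  by_cases hex : ∃ (P : Place ℂ E) (e : ℕ), BX P ∧ Over (rcP Q) P e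
  · -- on the boundary
    have hQS : Q ∈ S := by
      obtain ⟨P, e, hB, hov⟩ := hex
      exact hS Q P e hov.1 (fun z => hov.2 z) hB
    have hbd : bd S Q = 1 := by unfold bd; rw [if_pos hQS]
    obtain ⟨c, hc⟩ : ∃ c : Fin m → Ξ, c = fun i => if i = i0 then τ else 1 := ⟨_, rfl⟩
    have hlog : ∀ i, DerLog (rcP Q) (c i • dl δ i0 τ a i) := by
      intro i f
      refine Pool.Agent.W619.TW.log_of_pres (rcP Q) (c i • dl δ i0 τ a i) (fun g hg => ?_) hτ0
        hτ1 ?_ f
      · change (rcP Q).Reg (c i * dl δ i0 τ a i g)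
        refine (rcP Q).reg_mul ?_ (hdr i g hg)
        rw [hc]
        change (rcP Q).Reg (if i = i0 then τ else 1)
        split_ifs
        · exact Or.inr (by change (0 : ℤ) ≤ Q.ord τ; rw [hτ1]; norm_num)
        · exact (rcP Q).reg_one
      · change (rcP Q).Reg (c i * dl δ i0 τ a i τ / τ)
        by_cases hi : i = i0
        · subst hi
          rw [dl_same, hi0, ← ha, inv_mul_cancel₀ ha0, hc]
          simp only [if_true, mul_one]
          rw [div_self hτ0]
          exact (rcP Q).reg_one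
        · rw [dl_ne _ _ _ _ hi, hi0, ← ha, div_mul_cancel₀ _ ha0, sub_self, mul_zero, zero_div]
          exact (rcP Q).reg_zero
    have hP := Pool.Agent.N123.SX.core E Ξ m (N + 1) hm htr x hx BX ω hpl hsec D0 hdual (rcP Q)
      (rcP_div hN Q) (fun i => c i • dl δ i0 τ a i) (Or.inl hlog)
    have hdet : (Matrix.of fun i j => (c i • dl δ i0 τ a i) (algebraMap E Ξ (x j)) :
        Matrix (Fin m) (Fin m) Ξ).det = τ * (Matrix.of fun i j =>
          dl δ i0 τ a i (algebraMap E Ξ (x j)) : Matrix (Fin m) (Fin m) Ξ).det := by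
      have h2 : (Matrix.of fun i j => (c i • dl δ i0 τ a i) (algebraMap E Ξ (x j)) :
          Matrix (Fin m) (Fin m) Ξ) = Matrix.diagonal c * (Matrix.of fun i j =>
          dl δ i0 τ a i (algebraMap E Ξ (x j)) : Matrix (Fin m) (Fin m) Ξ) := by
        ext i j
        rw [Matrix.diagonal_mul]
        rfl
      rw [h2, Matrix.det_mul, Matrix.det_diagonal, hc, Finset.prod_ite_eq']
      simp
    rw [hdet, mul_assoc] at hP
    have h2 : Ge Q 0 (τ * ((Matrix.of fun i j => dl δ i0 τ a i (algebraMap E Ξ (x j)) :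
      Matrix (Fin m) (Fin m) Ξ).det * algebraMap E Ξ (ω D0))) := hP
    have h3 : Ge Q (-1) (τ⁻¹) := by
      right
      rw [Q.ord_inv, hτ1]
    have h4 := h3.mul h2
    rw [inv_mul_cancel_left₀ hτ0] at h4
    have h5 := Ge.mul h1 h4
    rw [hbd]
    have h6 : Q.ord a + (-1 + 0) = Q.ord a - 1 := by ring
    rwa [h6] at h5
  · -- outside of the boundary
    have hP := Pool.Agent.N123.SX.core E Ξ m (N + 1) hm htr x hx BX ω hpl hsec D0 hdual (rcP Q)
      (rcP_div hN Q) (fun i => dl δ i0 τ a i) (Or.inr ⟨hex, hdr⟩)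
    have h2 : Ge Q 0 ((Matrix.of fun i j => dl δ i0 τ a i (algebraMap E Ξ (x j)) :
      Matrix (Fin m) (Fin m) Ξ).det * algebraMap E Ξ (ω D0)) := hP
    have h3 := Ge.mul h1 h2
    rw [add_zero] at h3
    refine h3.mono ?_
    have h4 : 0 ≤ bd S Q := by unfold bd; split_ifs <;> omega
    omega

/-- The logarithmic canonical forms of the open variety with the function field `L`, of dimension `N`,
and with the boundary `BL` have ratios which contain `d` algebraically independent functions: the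
image of the logarithmic canonical map has dimension at least `d`. -/
def LogCanGe (L : Type) [Field L] [Algebra ℂ L] (N : ℕ) (BL : Place ℂ L → Prop) (d : ℕ) : Prop :=
  ∃ ω : Fin (d + 1) → (Fin N → Derivation ℂ L L) → L, (∀ j, LogSec ℂ L N 1 BL (ω j)) ∧
    ∃ D, ω 0 D ≠ 0 ∧ AlgebraicIndependent ℂ (fun i : Fin d => ω i.succ D / ω 0 D)

theorem kodGe_of_logCan {L : Type} [Field L] [Algebra ℂ L] {N d : ℕ} {BL : Place ℂ L → Prop}
    (h : LogCanGe L N BL d) : KodGe ℂ L N BL d := by
  obtain ⟨ω, hω, h2⟩ := h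
  exact ⟨1, one_pos, ω, hω, h2⟩

/-- **Coverings by curves of logarithmic genus at most one.** -/
theorem not_logCan_of_cov1 {L : Type} [Field L] [Algebra ℂ L] [Algebra.EssFiniteType ℂ L] {n : ℕ}
    (hL : Algebra.trdeg ℂ L = (n + 1 : ℕ)) {BL : Place ℂ L → Prop} (h : LogCov1 L n BL) :
    ¬ LogCanGe L (n + 1) BL (n + 1) := by
  obtain ⟨Λ, F, _, _, _, _, _, _, _, _, hΛ, φ, hglo⟩ := h
  let _ : Algebra L F := φ.toRingHom.toAlgebra
  have hT0 : IsScalarTower ℂ L F := IsScalarTower.of_algebraMap_eq fun c => (φ.commutes c).symm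
  have hφ : ∀ z : L, algebraMap L F z = φ z := fun z => rfl
  rintro ⟨ω, hω, D, hD, hind⟩
  have hch : CharZero Λ := charZero_of_injective_algebraMap (algebraMap ℂ Λ).injective
  obtain ⟨x, D0, hx, hdual⟩ := Pool.Agent.Y944.NT.exists_crd (k := ℂ) (K := L) hL
  obtain ⟨s, hs⟩ := IsFF.exists_transcendental (k := Λ) (K := F)
  obtain ⟨Ds, hDs⟩ := exists_D (k := Λ) hs
  have hDs0 : Ds ≠ 0 := by
    rintro rfl
    simp at hDs
  -- the frame
  obtain ⟨u, Eu, hu, hEu⟩ := Pool.Agent.Y944.NT.exists_crd (k := ℂ) (K := Λ) hΛ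
  obtain ⟨T, hTd⟩ : ∃ T : Fin (n + 1) → F, T = Fin.cons s (fun i => algebraMap Λ F (u i)) :=
    ⟨_, rfl⟩
  have hT : IsTranscendenceBasis ℂ T := by
    rw [hTd]
    exact Pool.Agent.N438.SX.basis_cons hu hs
  choose δ hδ using fun i : Fin (n + 1) =>
    Pool.Agent.W602.GT.exists_der T hT fun j => if i = j then 1 else 0
  have ha : ∀ y, δ 0 y = Ds y := by
    have h1 : δ 0 = Ds.restrictScalars ℂ := Pool.Agent.Y888.NT.der_ext' T hT fun j => by
      rw [hδ]
      refine Fin.cases ?_ (fun j => ?_) j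
      · rw [if_pos rfl, hTd, Fin.cons_zero]
        exact hDs.symm
      · rw [if_neg (Fin.succ_ne_zero j).symm, hTd, Fin.cons_succ]
        exact (Derivation.map_algebraMap Ds (u j)).symm
    intro y
    rw [h1]
    rfl
  have hb : ∀ (k : Fin (n + 1)) (c : Λ), ∃ c' : Λ, δ k (algebraMap Λ F c) = algebraMap Λ F c' := by
    intro k
    refine Fin.cases (fun c => ⟨0, ?_⟩) (fun k c => ⟨Eu k c, ?_⟩) k
    · rw [ha, Derivation.map_algebraMap, map_zero]
    · have h1 : (δ k.succ).compAlgebraMap Λ = (Algebra.linearMap Λ F).compDer (Eu k) :=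
        Pool.Agent.Y888.NT.der_ext' u hu fun j => by
          change δ k.succ (algebraMap Λ F (u j)) = algebraMap Λ F (Eu k (u j))
          have h2 := hδ k.succ j.succ
          rw [hTd, Fin.cons_succ] at h2
          rw [h2, hEu]
          by_cases h : k = j
          · rw [if_pos h, if_pos (by rw [h]), map_one]
          · rw [if_neg h, if_neg (fun h' => h (Fin.succ_injective _ h')), map_zero]
      exact DFunLike.congr_fun h1 c
  -- the determinant
  obtain ⟨mm, hmm⟩ : ∃ mm : Matrix (Fin (n + 1)) (Fin (n + 1)) F,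
    mm = Matrix.of fun k j => δ k (algebraMap L F (x j)) := ⟨_, rfl⟩
  have hφy : AlgebraicIndependent ℂ (fun j => algebraMap L F (x j)) :=
    hx.1.map' (f := IsScalarTower.toAlgHom ℂ L F) (algebraMap L F).injective
  have hcol : ∀ c : Fin (n + 1) → F, (∀ k, ∑ j, mm k j * c j = 0) → c = 0 := by
    intro c hc
    funext i
    obtain ⟨D, hD⟩ := Pool.Agent.Y944.NT.exists_der_indep hφy i
    have h1 := Pool.Agent.Y944.NT.der_expand hT hδ D
    have h2 : ∀ x, D x = ∑ k, D (T k) * δ k x := by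
      intro x
      conv_lhs => rw [h1]
      have h3 : (∑ k, D (T k) • δ k) x = ∑ k, (D (T k) • δ k) x :=
        congrFun (map_sum Derivation.coeFnAddMonoidHom (fun k => D (T k) • δ k) Finset.univ |>.trans
          rfl) x |>.trans (Finset.sum_apply _ _ _)
      rw [h3]
      rfl
    have h4 : ∑ j, c j * D (algebraMap L F (x j)) = 0 := by
      simp only [h2 (algebraMap L F (x _)), Finset.mul_sum]
      rw [Finset.sum_comm]
      refine Finset.sum_eq_zero fun k _ => ?_
      have h5 := hc k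
      calc ∑ j, c j * (D (T k) * δ k (algebraMap L F (x j))) = D (T k) * ∑ j, mm k j * c j := by
            rw [Finset.mul_sum]
            exact Finset.sum_congr rfl fun j _ => by rw [hmm, Matrix.of_apply]; ring
        _ = 0 := by rw [h5, mul_zero]
    simp only [hD, mul_ite, mul_one, mul_zero, Finset.sum_ite_eq, Finset.mem_univ, if_true] at h4
    exact h4
  have hdet : mm.det ≠ 0 := by
    intro h0
    obtain ⟨v, hv0, hv⟩ := Matrix.exists_mulVec_eq_zero_iff.2 h0
    exact hv0 (hcol v fun k => congrFun hv k)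
  -- the restrictions to the fibres are proportional
  have hval : ∀ j, ω j D = (Matrix.of fun a b => D a (x b) : Matrix (Fin (n + 1)) (Fin (n + 1))
      L).det * ω j D0 := by
    intro j
    have h1 := (hω j).1 (Matrix.of fun a b => D a (x b)) D0
    rw [pow_one] at h1
    rw [← h1]
    congr 1
    funext a
    exact (Pool.Agent.W73.PG.PULL.expand x hx D0 hdual (D a)).symm
  obtain ⟨e, he⟩ : ∃ e, e = (Matrix.of fun a b => D a (x b) : Matrix (Fin (n + 1)) (Fin (n + 1))
      L).det := ⟨_, rfl⟩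
  simp only [← he] at hval
  have he0 : e ≠ 0 := by
    rintro rfl
    rw [hval, zero_mul] at hD
    exact hD rfl
  have hω0 : ω 0 D0 ≠ 0 := by
    intro h0
    rw [hval, h0, mul_zero] at hD
    exact hD rfl
  have hsec : ∀ j, ∀ P : Place ℂ L, Divisorial (n + 1) P →
      LogAt P (ω j) ∧ (¬ BL P → RegAt P (ω j)) :=
    fun j P hP => ⟨(hω j).2.1 P hP, (hω j).2.2 P hP⟩
  have hcan : ∀ j, mm.det * algebraMap L F (ω j D0) ∈ HL Ds (Above φ BL : Set (Place Λ F)) := by
    intro j Q
    rw [hmm]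
    exact core_log (S := (Above φ BL : Set (Place Λ F))) hL hΛ hx hdual (hω j).1 (hsec j) Ds hDs δ 0 ha hb
      (fun Q P e he h hB => ⟨P, hB, e, he, h⟩) Q
  have hrat : ∀ j, ∃ c : Λ, algebraMap Λ F c = algebraMap L F (ω j D / ω 0 D) := by
    intro j
    obtain ⟨a, b, hab, h1⟩ := hglo Ds hDs0 _ (hcan j) _ (hcan 0)
    have h2 : algebraMap Λ F a * algebraMap L F (ω j D0) =
        algebraMap Λ F b * algebraMap L F (ω 0 D0) := by
      apply mul_left_cancel₀ hdet
      linear_combination h1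
    have h0' : algebraMap L F (ω 0 D0) ≠ 0 := by simpa using hω0
    have ha0 : a ≠ 0 := by
      rintro rfl
      rw [map_zero, zero_mul] at h2
      rcases mul_eq_zero.1 h2.symm with h3 | h3
      · rcases hab with h4 | h4
        · exact h4 rfl
        · exact h4 (by simpa using h3)
      · exact h0' h3
    have ha1 : algebraMap Λ F a ≠ 0 := by simpa using ha0
    refine ⟨b / a, ?_⟩
    rw [hval, hval, mul_div_mul_left _ _ he0, map_div₀, map_div₀, div_eq_div_iff ha1 h0']
    linear_combination -h2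
  choose c hc using hrat
  have hind2 : AlgebraicIndependent ℂ fun i : Fin (n + 1) => c i.succ := by
    have h1 : AlgebraicIndependent ℂ fun i : Fin (n + 1) =>
        algebraMap L F (ω i.succ D / ω 0 D) :=
      hind.map' (f := IsScalarTower.toAlgHom ℂ L F) (algebraMap L F).injective
    have h2 : (fun i : Fin (n + 1) => algebraMap L F (ω i.succ D / ω 0 D)) =
        fun i => (IsScalarTower.toAlgHom ℂ Λ F) (c i.succ) := by
      funext i
      exact (hc i.succ).symm
    rw [h2] at h1
    exact AlgebraicIndependent.of_comp (IsScalarTower.toAlgHom ℂ Λ F) h1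
  have h1 := hind2.lift_cardinalMk_le_trdeg
  rw [hΛ] at h1
  simp only [Cardinal.mk_fin, Cardinal.lift_natCast] at h1
  have h2 : n + 1 ≤ n := by exact_mod_cast h1
  omega

end Pool.Agent.J4.H18.LS
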