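import Pool.Agent.J4.H18.LS.Cov
import Pool.Agent.J4.H18.LS.Rev
import Pool.Agent.J4.H18.MS.Main

/-!
Logarithmic abundance for the images of fibrations by open curves, with several maps on the base.
The proof follows `Pool.Agent.J4.H18.MS.Core` and `Pool.Agent.J4.H18.MS.Main`.
-/

set_option autoImplicit false
set_option linter.overlappingInstances false
set_option linter.unusedSectionVars false
set_option linter.unusedVariables false
set_option maxHeartbeats 4000000
set_option synthInstance.maxHeartbeats 400000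

open Polynomial FF IntermediateField Module

namespace Pool.Agent.J4.H18.LS

open Pool.Agent.W603.LV Pool.Agent.W619.PQ Pool.Agent.N145.PC Pool.Agent.N145.PL
open Pool.Agent.N145.SX
open Pool.Agent.W602.GT (Divisorial RegAt IsPluri DerReg DerLog LogAt KodGe LogSec Psef)
open Pool.Agent.Y184.NT (trForm trForm_pluri)
open Pool.Agent.R882.LT (TraceNe SecAt trForm_sec LogGenusZero)
open Pool.Agent.J4.H19.FC (GF toGF)
open Pool.Agent.J4.H18.MS

open scoped Classical

section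

variable {K : Type} [Field K] [Algebra ℂ K] {n : ℕ} {L : Type} [Field L] [Algebra ℂ L]
  [Algebra L K] [IsScalarTower ℂ L K] [FiniteDimensional L K]

/-- **Ratios of logarithmic canonical forms from algebraic ratios.** -/
theorem logCan_of_alg [Algebra.EssFiniteType ℂ L] {n N d : ℕ}
    (hL : Algebra.trdeg ℂ L = n) {y : Fin n → L} {G : Fin n → Derivation ℂ L L}
    (hG : ∀ i j, G i (y j) = if i = j then 1 else 0) {BL : Place ℂ L → Prop} {ι : Type}
    (T : ι → L) (hT0 : ∃ f, T f ≠ 0)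
    (hreg : ∀ f, ∀ P : Place ℂ L, Divisorial n P → SecAt BL P (trForm y (T f))) {x : Fin N → K}
    (hd : Algebra.trdeg ℂ (IntermediateField.adjoin ℂ (Set.range x)) = d)
    (halg : ∀ j, IsAlgebraic (Rt T) (x j)) : LogCanGe L n BL d := by
  obtain ⟨s, hs0, hs⟩ := Pool.Agent.R882.LT.exists_ratios_d (d := d) hL hd T hT0
    fun D h1 D' h2 j => der_alg2 (Rt T) D' (fun c hc => by
      rw [h2, der_ratio T D h1 c hc, map_zero]) (halg j)
  have hθE : ∀ t, trForm y t G = t := by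
    intro t
    have h1 : (Matrix.of fun i j => G i (y j) : Matrix (Fin n) (Fin n) L) = 1 := by
      ext i j
      rw [Matrix.of_apply, hG, Matrix.one_apply]
    rw [trForm, h1, Matrix.det_one, one_mul]
  refine ⟨fun j => trForm y (T (s j)), fun l =>
    ⟨trForm_pluri y _, fun P hP => (hreg _ P hP).1, fun P hP hB => (hreg _ P hP).2 hB⟩, G, ?_, ?_⟩
  · change trForm y (T (s 0)) G ≠ 0
    rw [hθE]
    exact hs0
  · simp only [hθE]
    exact hs

end

section

variable {K : Type} [Field K] [Algebra ℂ K] {k : ℕ} {F : Fin (k + 1) → IntermediateField ℂ K}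
  {L : Type} [Field L] [Algebra ℂ L] [Algebra L K] [IsScalarTower ℂ L K] [FiniteDimensional L K]
  {E : IntermediateField ℂ K} {H : ∀ i, Set (F i)} {gg : Fin (k + 1) → ℕ}

/-- **The logarithmic canonical map and the base.** -/
theorem core [Algebra.EssFiniteType ℂ K] {n : ℕ} (hK : Algebra.trdeg ℂ K = (n + 1 : ℕ))
    (hE : E = ⨆ i : Fin k, F i.castSucc) (hEtr : Algebra.trdeg ℂ E = n)
    (hcl : ∀ z : K, IsAlgebraic E z → z ∈ E)
    (hS : ∀ (Ω : Type) [Field Ω] [Algebra ℂ Ω] [IsAlgClosed Ω] (i : Fin (k + 1)),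
      Sep (ev Ω F i) (H i) (gg i))
    (hd : ∀ i : Fin k, 2 * finrank (MF F L (Js (k + 1) i)) (IntermediateField.adjoin
      (MF F L (Js (k + 1) i)) (F i.castSucc : Set K)) < gg i.castSucc) {h : K}
    {φ0 : F (Fin.last k)} (hφ0 : φ0 ∈ H (Fin.last k))
    (hS0 : Algebra.trace (IntermediateField.adjoin L (E : Set K)) K (h * (φ0 : K)) ≠ 0)
    {y : Fin (n + 1) → L} {G : Fin (n + 1) → Derivation ℂ L L}
    (hG : ∀ i j, G i (y j) = if i = j then 1 else 0) {BL : Place ℂ L → Prop}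
    (hreg : ∀ f : ∀ i, F i, (∀ i, f i ∈ H i) → ∀ P : Place ℂ L, Divisorial (n + 1) P →
      SecAt BL P (trForm y (Algebra.trace L K (h * ∏ i, algebraMap (F i) K (f i))))) :
    LogCanGe L (n + 1) BL n ∧ (LogCanGe L (n + 1) BL (n + 1) ∨ ∀ φ ∈ H (Fin.last k), ∃ c ∈ E,
      ((Algebra.trace (IntermediateField.adjoin L (E : Set K)) K (h * (φ : K)) :
        IntermediateField.adjoin L (E : Set K)) : K) = c *
      ((Algebra.trace (IntermediateField.adjoin L (E : Set K)) K (h * (φ0 : K)) :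
        IntermediateField.adjoin L (E : Set K)) : K)) := by
  have hL : Algebra.trdeg ℂ L = (n + 1 : ℕ) := Pool.Agent.Y184.NT.trdeg_below (K := K) hK
  have hessL : Algebra.EssFiniteType ℂ L := Pool.Agent.TH466.QG.ess_below (K := K)
  obtain ⟨T, hT⟩ : ∃ T : {f : ∀ i, F i // ∀ i, f i ∈ H i} → L, ∀ f, T f =
    Algebra.trace L K (h * ∏ i, algebraMap (F i) K (f.1 i)) := ⟨_, fun _ => rfl⟩
  obtain ⟨hT0, hEalg, hrat⟩ := alg_ratios (L := L) hE hS hd hφ0 hS0 hT
  have hTreg : ∀ f, ∀ P : Place ℂ L, Divisorial (n + 1) P → SecAt BL P (trForm y (T f)) := by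
    intro f P hP
    rw [hT]
    exact hreg f.1 f.2 P hP
  obtain ⟨z, -, hz, -⟩ := Pool.Agent.Y944.NT.exists_crd (k := ℂ) (K := E) hEtr
  have hzK : AlgebraicIndependent ℂ (fun l => (z l : K)) :=
    hz.1.map' (f := E.val) E.val.injective
  refine ⟨logCan_of_alg hL hG T hT0 hTreg (trdeg_adj hzK) fun j => hEalg _, ?_⟩
  have hgen : ∀ u : K, ¬ IsAlgebraic E u → IsAlgebraic (Rt T) u →
      LogCanGe L (n + 1) BL (n + 1) := by
    intro u hu hu'
    refine logCan_of_alg hL hG T hT0 hTreg (trdeg_adj (indep_snoc hz hu)) fun j => ?_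
    induction j using Fin.lastCases with
    | last =>
      rw [Fin.snoc_last]
      exact hu'
    | cast i =>
      rw [Fin.snoc_castSucc]
      exact hEalg _
  by_cases hex : ∃ u : K, ¬ IsAlgebraic E u ∧ IsAlgebraic (Rt T) u
  · obtain ⟨u, hu, hu'⟩ := hex
    exact Or.inl (hgen u hu hu')
  push Not at hex
  have hall : ∀ u : K, IsAlgebraic (Rt T) u → u ∈ E := fun u hu => by
    by_contra hcon
    exact hex u (fun h => hcon (hcl u h)) hu
  right
  intro φ hφ
  refine ⟨_, hall _ (hrat φ hφ), ?_⟩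
  rw [div_mul_cancel₀]
  intro h0
  exact hS0 (Subtype.ext h0)

end

section

variable {K : Type} [Field K] [Algebra ℂ K] {k n : ℕ} {F : Fin k → IntermediateField ℂ K}
  {S : Fin k → Set K} {J : Type} {ω : J → (Fin (n + 1) → Derivation ℂ K K) → K}
  {L : Type} [Field L] [Algebra ℂ L] [Algebra L K] [IsScalarTower ℂ L K] [FiniteDimensional L K]

/-- the traces -/
theorem setup [Algebra.EssFiniteType ℂ K] (hK : Algebra.trdeg ℂ K = (n + 1 : ℕ))
    {B : IntermediateField ℂ K} (hBF : B = ⨆ i, F i) {BV : Place ℂ K → Prop}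
    (hreg : ∀ s : Fin k → K, (∀ i, s i ∈ F i ∧ s i ∈ S i) → ∀ j,
      LogSec ℂ K (n + 1) 1 BV (fun D => (∏ i, s i) * ω j D)) {BL : Place ℂ L → Prop}
    (hBL : ∀ (P : Place ℂ L) (Q : Place ℂ K) (e : ℕ), Over Q P e → BV Q → BL P)
    {y : Fin (n + 1) → L} {E : Fin (n + 1) → Derivation ℂ L L} (hy : IsTranscendenceBasis ℂ y)
    (hE : ∀ i j, E i (y j) = if i = j then 1 else 0) {E1 : Fin (n + 1) → Derivation ℂ K K}
    (hE1 : ∀ i f, E1 i (algebraMap L K f) = algebraMap L K (E i f)) :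
    ∃ H : ∀ i, Set (ext F i),
      (∀ φ : ext F (Fin.last k), φ ∈ H (Fin.last k) ↔ ∃ j, (φ : K) = ω j E1) ∧
      (∀ f : ∀ i, ext F i, (∀ i, f i ∈ H i) → ∀ P : Place ℂ L, Divisorial (n + 1) P →
        SecAt BL P (trForm y (Algebra.trace L K (1 * ∏ i, algebraMap (ext F i) K (f i))))) ∧
      ∀ r : Fin k → ℕ, (∀ i, Separates (F i) (S i) (r i)) → ∃ gg : Fin (k + 1) → ℕ,
        (∀ i : Fin k, gg i.castSucc = r i + 1) ∧
        ∀ (Ω : Type) [Field Ω] [Algebra ℂ Ω] [IsAlgClosed Ω] (i : Fin (k + 1)),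
          Sep (ev Ω (ext F) i) (H i) (gg i) := by
  have hL : Algebra.trdeg ℂ L = (n + 1 : ℕ) := Pool.Agent.Y184.NT.trdeg_below (K := K) hK
  have hessL : Algebra.EssFiniteType ℂ L := Pool.Agent.TH466.QG.ess_below (K := K)
  obtain ⟨SK, hSK⟩ : ∃ SK : Fin (k + 1) → Set K, SK = Fin.snoc (α := fun _ => Set K) S
    (Set.range fun j => ω j E1) := ⟨_, rfl⟩
  have hSl : SK (Fin.last k) = Set.range fun j => ω j E1 := by
    rw [hSK, Fin.snoc_last]
  have hSc : ∀ i : Fin k, SK i.castSucc = S i := fun i => by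
    rw [hSK, Fin.snoc_castSucc]
  refine ⟨fun i => {z : ext F i | (z : K) ∈ SK i}, fun φ => ?_, ?_, ?_⟩
  · change (φ : K) ∈ SK (Fin.last k) ↔ _
    rw [hSl]
    exact ⟨fun ⟨j, hj⟩ => ⟨j, hj.symm⟩, fun ⟨j, hj⟩ => ⟨j, hj.symm⟩⟩
  · intro f hf P hP
    obtain ⟨j, hj⟩ : ∃ j, (f (Fin.last k) : K) = ω j E1 := by
      have h1 : (f (Fin.last k) : K) ∈ SK (Fin.last k) := hf (Fin.last k)
      rw [hSl] at h1
      obtain ⟨j, hj⟩ := h1
      exact ⟨j, hj.symm⟩
    have hs : ∀ i : Fin k, (f i.castSucc : K) ∈ F i ∧ (f i.castSucc : K) ∈ S i := by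
      intro i
      have h1 : (f i.castSucc : K) ∈ SK i.castSucc := hf i.castSucc
      rw [hSc] at h1
      exact ⟨(ext_cast F i).le (f i.castSucc).2, h1⟩
    obtain ⟨W, hW⟩ : ∃ W : (Fin (n + 1) → Derivation ℂ K K) → K,
      W = fun D => (∏ i : Fin k, (f i.castSucc : K)) * ω j D := ⟨_, rfl⟩
    have hsec := hreg _ hs j
    rw [← hW] at hsec
    have h3 : 1 * ∏ i, algebraMap (ext F i) K (f i) = W E1 := by
      rw [one_mul, Fin.prod_univ_castSucc, hW]
      congr 1
    rw [h3]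
    exact trForm_sec (BK := BV) (BL := BL) hL hy hE hE1 W hsec.1 hBL
      (fun Q hQ => ⟨hsec.2.1 Q hQ, hsec.2.2 Q hQ⟩) P hP
  · intro r hr
    obtain ⟨gg, hgg⟩ : ∃ gg : Fin (k + 1) → ℕ, gg = Fin.snoc (α := fun _ => ℕ)
      (fun i => r i + 1) 0 := ⟨_, rfl⟩
    have hggl : gg (Fin.last k) = 0 := by
      rw [hgg, Fin.snoc_last]
    have hggc : ∀ i : Fin k, gg i.castSucc = r i + 1 := fun i => by
      rw [hgg, Fin.snoc_castSucc]
    refine ⟨gg, hggc, fun Ω _ _ _ i => ?_⟩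
    induction i using Fin.lastCases with
    | last =>
      intro A hA
      rw [hggl] at hA
      exact absurd hA (Nat.not_lt_zero _)
    | cast i =>
      rw [hggc]
      exact sep_ev (hr i) (ext_cast F i) (hSc i) Ω

/-- **Images of fibrations by open curves.** -/
theorem main [hess : Algebra.EssFiniteType ℂ K] (hK : Algebra.trdeg ℂ K = (n + 1 : ℕ))
    {B : IntermediateField ℂ K} (hBF : B = ⨆ i, F i) (hB : Algebra.trdeg ℂ B = n)
    (hcl : ∀ z : K, IsAlgebraic B z → z ∈ B) {BV : Place ℂ K → Prop}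
    (hω : ∀ j, IsPluri 1 (ω j))
    (hreg : ∀ s : Fin k → K, (∀ i, s i ∈ F i ∧ s i ∈ S i) → ∀ j,
      LogSec ℂ K (n + 1) 1 BV (fun D => (∏ i, s i) * ω j D)) (hspan : GenLog B BV ω)
    (L : Type) [Field L] [Algebra ℂ L] [Algebra L K] [IsScalarTower ℂ L K]
    [FiniteDimensional L K] {BL : Place ℂ L → Prop}
    (hBL : ∀ (P : Place ℂ L) (Q : Place ℂ K) (e : ℕ), Over Q P e → (BL P ↔ BV Q)) :
    ((∀ i, Separates (F i) (S i) (deg F L i)) →
      [LogGenusZero L (n + 1) BL, ¬ KodGe ℂ L (n + 1) BL 0, ¬ Psef ℂ L (n + 1) BL,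
        Pool.Agent.W619.PL.IsA1Uniruled ℂ L (n + 1) BL].TFAE) ∧
    ((∀ i, Separates (F i) (S i) (2 * deg F L i)) →
      [Psef ℂ L (n + 1) BL, KodGe ℂ L (n + 1) BL n, LogCanGe L (n + 1) BL n,
        ¬ Pool.Agent.W619.PL.IsA1Uniruled ℂ L (n + 1) BL].TFAE ∧
      (LogCanGe L (n + 1) BL (n + 1) ↔ ¬ LogCov1 L n BL)) := by
  have hL : Algebra.trdeg ℂ L = (n + 1 : ℕ) := Pool.Agent.Y184.NT.trdeg_below (K := K) hK
  have hessL : Algebra.EssFiniteType ℂ L := Pool.Agent.TH466.QG.ess_below (K := K)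
  -- the frame of `W`
  obtain ⟨y, E, hy, hE⟩ := Pool.Agent.Y172.exists_crd (k := ℂ) (K := L) hL
  choose E1 hE1 using fun i =>
    Pool.Agent.Y172.exists_lift (k := ℂ) (K := L) (L := K) hL (E i)
  have hyK : IsTranscendenceBasis ℂ (fun j => algebraMap L K (y j)) := hy.algebraMap_comp
  have hE1d := Pool.Agent.Y172.lift_dual hE hE1
  have hθE : ∀ t, trForm y t E = t := by
    intro t
    have h1 : (Matrix.of fun i j => E i (y j) : Matrix (Fin (n + 1)) (Fin (n + 1)) L) = 1 := by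
      ext i j
      rw [Matrix.of_apply, hE, Matrix.one_apply]
    rw [trForm, h1, Matrix.det_one, one_mul]
  have hBE : B = ⨆ i : Fin k, ext F i.castSucc := by
    rw [hBF]
    exact iSup_congr fun i => (ext_cast F i).symm
  obtain ⟨H, hHl, hTreg, hSep⟩ := setup (L := L) (BL := BL) hK hBF hreg
    (fun P Q e h hQ => (hBL P Q e h).2 hQ) hy hE hE1
  -- the image in the product with `V'`
  obtain ⟨M, hM⟩ : ∃ M : IntermediateField L K, M = IntermediateField.adjoin L (B : Set K) :=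
    ⟨_, rfl⟩
  have hle : B ≤ M.restrictScalars ℂ := by
    rw [hM]
    exact IntermediateField.subset_adjoin L (B : Set K)
  obtain ⟨E', hE'⟩ : ∃ E' : IntermediateField B K, E' = IntermediateField.extendScalars hle :=
    ⟨_, rfl⟩
  have hE'r : E'.restrictScalars ℂ = M.restrictScalars ℂ := by
    rw [hE']
    exact IntermediateField.extendScalars_restrictScalars hle
  have hfinE : FiniteDimensional E' K := by
    have h1 : FiniteDimensional M K := inferInstance
    rw [hE']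
    exact h1
  have hLE : ∀ z : L, algebraMap L K z ∈ E' := by
    intro z
    have h1 : algebraMap L K z ∈ E'.restrictScalars ℂ := by
      rw [hE'r]
      exact M.algebraMap_mem z
    exact h1
  have htrEM : ∀ z : K, ((Algebra.trace E' K z : E') : K) = ((Algebra.trace M K z : M) : K) := by
    intro z
    subst hE'
    rfl
  -- the fibres
  obtain ⟨hgeo1, hgeo2⟩ := geo hK B hB hcl E' hLE ω hspan (BL := BL)
    (fun P Q e h hP => (hBL P Q e h).1 hP)
  have hfr : ∀ (D0 : Fin (n + 1) → Derivation ℂ (E'.restrictScalars ℂ) (E'.restrictScalars ℂ))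
      (Ef : Fin (n + 1) → Derivation ℂ K K),
      (∀ i (z : E'.restrictScalars ℂ), Ef i (z : K) = ((D0 i z : E'.restrictScalars ℂ) : K)) →
      ∃ δ : E', ∀ j, Algebra.trace E' K (ω j Ef) = δ * Algebra.trace E' K (ω j E1) := by
    intro D0 Ef hEf
    obtain ⟨δ, hδ⟩ : ∃ δ : E', (δ : K) =
        (Matrix.of fun i j => Ef i (algebraMap L K (y j))).det := by
      obtain ⟨A, hA⟩ : ∃ A : Matrix (Fin (n + 1)) (Fin (n + 1)) E',
          ∀ i j, (A i j : K) = Ef i (algebraMap L K (y j)) :=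
        ⟨fun i j => ⟨Ef i (algebraMap L K (y j)), by
          have h1 := hEf i ⟨algebraMap L K (y j), hLE (y j)⟩
          change Ef i (algebraMap L K (y j)) = _ at h1
          rw [h1]
          exact (D0 i ⟨algebraMap L K (y j), hLE (y j)⟩).2⟩, fun _ _ => rfl⟩
      refine ⟨A.det, ?_⟩
      change algebraMap E' K A.det = _
      rw [RingHom.map_det]
      congr 1
      ext i j
      exact hA i j
    refine ⟨δ, fun j => ?_⟩
    have h2 : ω j Ef = δ • ω j E1 := by
      rw [Pool.Agent.Y172.pluri_coord hyK hE1d (hω j) Ef, pow_one, Algebra.smul_def]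
      change _ = (δ : K) * _
      rw [hδ]
    rw [h2, map_smul, smul_eq_mul]
  have huni : ¬ Pool.Agent.W619.PL.IsA1Uniruled ℂ L (n + 1) BL →
      ∃ j, Algebra.trace M K (ω j E1) ≠ 0 := by
    intro hnu
    by_contra hcon
    push Not at hcon
    apply hnu
    refine hgeo1 fun D0 Ef hEf j => ?_
    obtain ⟨δ, hδ⟩ := hfr D0 Ef hEf
    rw [hδ]
    have h1 : Algebra.trace E' K (ω j E1) = 0 := by
      apply Subtype.ext
      rw [htrEM, hcon j]
      rfl
    rw [h1, mul_zero]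
  have hφ0 : ∀ j, ∃ φ0 : ext F (Fin.last k), φ0 ∈ H (Fin.last k) ∧ (φ0 : K) = ω j E1 := by
    intro j
    have h1 : ω j E1 ∈ ext F (Fin.last k) := by
      rw [ext_last]
      trivial
    exact ⟨⟨ω j E1, h1⟩, (hHl _).2 ⟨j, rfl⟩, rfl⟩
  refine ⟨fun hs => ?_, fun hs => ?_⟩
  · refine tfaeL hL fun hg => ?_
    by_contra hnu
    obtain ⟨j, hj⟩ := huni hnu
    obtain ⟨φ0, hφ0, hφj⟩ := hφ0 j
    obtain ⟨gg, hgg, hSepΩ⟩ := hSep _ hs
    rw [hM] at hj
    obtain ⟨f, hf, hne⟩ := exists_trace_ne (L := L) (h := 1) hBE hSepΩ (fun i => by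
      rw [deg_ext, hgg]
      exact Nat.lt_succ_self _) hφ0 (by rw [one_mul, hφj]; exact hj)
    have h2 := hg (trForm y _) ⟨trForm_pluri y _, fun P hP => (hTreg f hf P hP).1,
      fun P hP => (hTreg f hf P hP).2⟩ E
    rw [hθE] at h2
    exact hne h2
  · obtain ⟨gg, hgg, hSepΩ⟩ := hSep _ hs
    have hdd : ∀ i : Fin k, 2 * finrank (MF (ext F) L (Js (k + 1) i))
        (IntermediateField.adjoin (MF (ext F) L (Js (k + 1) i)) (ext F i.castSucc : Set K)) <
        gg i.castSucc := fun i => by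
      rw [deg_ext, hgg]
      exact Nat.lt_succ_self _
    have hcore : ∀ j, Algebra.trace M K (ω j E1) ≠ 0 → LogCanGe L (n + 1) BL n ∧
        (LogCanGe L (n + 1) BL (n + 1) ∨ ∀ j', ∃ c ∈ B,
          ((Algebra.trace M K (ω j' E1) : M) : K) =
            c * ((Algebra.trace M K (ω j E1) : M) : K)) := by
      intro j hj
      obtain ⟨φ0, hφ0H, hφj⟩ := hφ0 j
      subst hM
      obtain ⟨h1, h2⟩ := core (L := L) (h := 1) (BL := BL) hK hBE hB hcl hSepΩ hdd hφ0H
        (by rw [one_mul, hφj]; exact hj) hE hTreg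
      refine ⟨h1, h2.imp_right fun h3 j' => ?_⟩
      obtain ⟨φ', hφ'H, hφ'j⟩ := hφ0 j'
      obtain ⟨c, hc, h4⟩ := h3 φ' hφ'H
      refine ⟨c, hc, ?_⟩
      rw [one_mul, one_mul, hφj, hφ'j] at h4
      exact h4
    have hdich : ¬ Pool.Agent.W619.PL.IsA1Uniruled ℂ L (n + 1) BL →
        LogCanGe L (n + 1) BL n := by
      intro hnu
      obtain ⟨j, hj⟩ := huni hnu
      exact (hcore j hj).1
    have hcov : ¬ LogCanGe L (n + 1) BL (n + 1) → LogCov1 L n BL := by
      intro hcan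
      have hline : ∃ S1 : K, ∀ j, ∃ c ∈ B, ((Algebra.trace M K (ω j E1) : M) : K) = c * S1 := by
        by_cases h0 : ∃ j0, Algebra.trace M K (ω j0 E1) ≠ 0
        · obtain ⟨j0, h0⟩ := h0
          exact ⟨_, (hcore j0 h0).2.resolve_left hcan⟩
        · push Not at h0
          exact ⟨0, fun j => ⟨0, zero_mem _, by rw [h0, mul_zero]; rfl⟩⟩
      obtain ⟨S1, hS1⟩ := hline
      refine hgeo2 fun D0 Ef hEf => ?_
      obtain ⟨δ, hδ⟩ := hfr D0 Ef hEf
      refine ⟨(δ : K) * S1, fun j => ?_⟩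
      obtain ⟨c, hc, h⟩ := hS1 j
      refine ⟨c, hc, ?_⟩
      rw [hδ]
      change (δ : K) * ((Algebra.trace E' K (ω j E1) : E') : K) = _
      rw [htrEM, h]
      ring
    refine ⟨?_, ?_⟩
    · tfae_have 1 → 4 := fun h h' => not_psef_of_a1 hL h' h
      tfae_have 4 → 3 := hdich
      tfae_have 3 → 2 := kodGe_of_logCan
      tfae_have 2 → 1 := Pool.Agent.N145.PL.psef_of_kodGe'
      tfae_finish
    · refine ⟨fun h h' => not_logCan_of_cov1 hL h' h, fun h => ?_⟩
      by_contra hcan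
      exact h (hcov hcan)

end

end Pool.Agent.J4.H18.LS
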